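import Mathlib
import Pool.Agent.R439.WPB

set_option autoImplicit false

namespace Pool.Agent.Results.MP_3c5a12_nt.CubeDivides

open Finset Polynomial Pool.Agent.R439

/-- The sum `S_d(n)` of the problem. -/
noncomputable def S (d n : ℕ) : K :=
  ∑ k ∈ range n, qint (2 * (d : ℤ) * k + 1) * (poch q (q ^ d) k / poch (q ^ d) (q ^ d) k) ^ d *
    q ^ (d * (d - 3) * k / 2)

theorem S_eq {d e : ℕ} (hde : d = 2 * e + 3) (n : ℕ) :
    S d n = (∑ k ∈ range n, TA d 1 e k) * (1 - q)⁻¹ := by
  rw [S, sum_mul]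
  refine sum_congr rfl fun k _ => ?_
  have h1 : d * (d - 3) * k / 2 = d * (k * e) := by
    have : d * (d - 3) * k = 2 * (d * (k * e)) := by
      rw [hde, Nat.add_sub_cancel]; ring
    rw [this, Nat.mul_div_cancel_left _ two_pos]
  have h2 : (1 : ℤ) + 2 * d * k = 2 * d * k + 1 := by ring
  rw [TA, rho, qint, h1, zpow_one, h2, pow_mul, pow_mul]
  ring

/-- **Answer to Q1**: for every odd `d ≥ 5` and every positive `n ≡ -1 (mod d)`, the sum `S_d(n)`
is divisible by `Φ_n(q)^3`. -/
theorem result : ∀ d n : ℕ, Odd d → 5 ≤ d → 0 < n → d ∣ n + 1 →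
    Cong (cyclotomic n ℚ ^ 3) (S d n) 0 := by
  intro d n hd hd5 hn hdn
  have : NeZero n := ⟨hn.ne'⟩
  obtain ⟨c, hc⟩ := hd
  obtain ⟨u, hu⟩ := hdn
  have hu0 : 0 < u := by
    rcases Nat.eq_zero_or_pos u with h | h
    · subst h; omega
    · exact h
  have hle : 5 * u ≤ d * u := Nat.mul_le_mul_right u hd5
  have hu2 : u ≤ n := by omega
  have hn2 : 2 ≤ n := by omega
  have D : Data n d u (n - u) (c - 2) (c - 1) 1 1 :=
    { hn := hn2
      hd := by omega
      hs := Or.inl rfl
      hr := Or.inl rfl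
      hu := by rw [one_mul]; exact_mod_cast hu.symm
      hM := by omega
      he := by
        have : ((c - 1 : ℕ) : ℤ) = c - 1 := by omega
        rw [this, hc]; push_cast; ring }
  have h1 := D.full.1
  rw [Cong, sub_zero, S_eq (e := c - 1) (by omega)]
  have hU : U n (1 - q) := by
    have := U_one_sub (n := n) (e := 1) (fun h => by
      have := Int.le_of_dvd one_pos h
      omega)
    rwa [zpow_one] at this
  exact num_of_I (h1.mulR hU.2.2)

end Pool.Agent.Results.MP_3c5a12_nt.CubeDivides
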